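import Mathlib
import Pool.Agent.Run7.h551.AS7

/-!
# Every finite group is involved in the congruence completion of `Aut (Phi r)`, `r ≥ 3`

Let `Phi r` be the free solvable group of derived length `r ≥ 3` on two generators, `U` a
finite-index subgroup of its automorphism group and `G` a finite group.  There are a
characteristic subgroup `K` of finite index containing the third derived subgroup, a subgroup
`Δ ≤ U` and a surjection `Δ → G` that is trivial on every element of `U` which acts on
`Phi r ⧸ K` as an inner automorphism.

The proof: for a prime `p` consider the free group `F` on `x, y`, its normal subgroup `H` with
quotient `ℤ/p` (`x ↦ 1`, `y ↦ 0`), and the character of `H` sending `x ^ p` to `1` and the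
conjugates of `y` to `(u + i) / (u + i + 1)`, where `u ^ p = u + 1` in characteristic `p`.
The automorphisms `y ↦ x ^ p y` and `x ↦ x y` act on the first cohomology of this rank one local
system as a transvection and as the companion matrix of the Artin-Schreier polynomial; together
they generate a group containing all elementary matrices of size `p` over the prime field.
-/

theorem Pool.Agent.Results.MP_22db8c_al.EveryFiniteSection.result (r : ℕ) (hr : 3 ≤ r) :
    Run7.h551.AllFiniteSections (FreeGroup (Fin 2) ⧸ derivedSeries (FreeGroup (Fin 2)) r) :=
  fun G _ _ U hU => @Run7.h551.section_main r hr G _ _ U hU
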