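import Mathlib
import Pool.Agent.Run7.h551.SolMain

/-!
# MP_22db8c_al: subgroups containing a term of the derived series of `Γ(2)`

For every `r ≥ 3`, every finite-index subgroup of `SL(2, ℤ)` that contains the `(r - 1)`-st term of
the derived series of `Γ(2)` is open in the congruence topology of `Φ_{2,r}`.
-/

namespace Pool.Agent.Results.MP_22db8c_al.SolvableQuotients

theorem result (r : ℕ) (hr : 3 ≤ r) (N : Subgroup (Matrix.SpecialLinearGroup (Fin 2) ℤ))
    (hf : N.FiniteIndex)
    (hN : ∀ m ∈ derivedSeries (CongruenceSubgroup.Gamma 2) (r - 1),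
      (m : Matrix.SpecialLinearGroup (Fin 2) ℤ) ∈ N) : Run7.h551.CongOpen r N :=
  Run7.h551.solv_main r hr N hf hN

end Pool.Agent.Results.MP_22db8c_al.SolvableQuotients
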